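import Pool.Agent.Work.MP_609cce_lc_nd.NConv

/-!
# Deterministic OR-compressions over any finite alphabet are nondeterministic ones
-/

namespace ORDist

open PTime Turing

attribute [local instance] finCode

section

variable {S : Type} [Finite S]

/-- the binary code of a letter: its number in unary, then `0` -/
noncomputable def ucode (s : S) : List Bool :=
  List.replicate (Finite.equivFin S s).1 true ++ [false]

/-- all letters -/
noncomputable def letters (S : Type) [Finite S] : List S :=
  (List.finRange (Nat.card S)).map (Finite.equivFin S).symm

/-- state: (number of bits `1` of the current letter, reversed list of the letters) -/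
noncomputable def ucStep (s₀ : S) (st : ℕ × List S) (b : Bool) : ℕ × List S :=
  bif b then (st.1 + 1, st.2) else (0, (letters S).getD st.1 s₀ :: st.2)

/-- the decoder -/
noncomputable def undo (s₀ : S) (l : List Bool) : List S := (l.foldl (ucStep s₀) (0, [])).2.reverse

theorem getD_letters (s₀ s : S) : (letters S).getD (Finite.equivFin S s).1 s₀ = s := by
  unfold letters
  have h : (Finite.equivFin S s).1 < Nat.card S := (Finite.equivFin S s).2
  rw [List.getD_eq_getElem _ _ (by simp [h])]
  simp

theorem undo_ucode (s₀ : S) (x : List S) : undo s₀ (x.flatMap ucode) = x := by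
  have h0 : ∀ (n m : ℕ) (Y : List S),
      (List.replicate n true).foldl (ucStep s₀) (m, Y) = (m + n, Y) := by
    intro n
    induction n with
    | zero => intro m Y; rfl
    | succ n ih =>
      intro m Y
      show (List.replicate n true).foldl (ucStep s₀) (m + 1, Y) = _
      rw [ih]
      congr 1
      omega
  have h1 : ∀ (x : List S) (Y : List S),
      (x.flatMap ucode).foldl (ucStep s₀) (0, Y) = (0, x.reverse ++ Y) := by
    intro x
    induction x with
    | nil => intro Y; rfl
    | cons s x ih =>
      intro Y
      rw [List.flatMap_cons, List.foldl_append]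
      unfold ucode
      rw [List.foldl_append, h0]
      show (x.flatMap ucode).foldl (ucStep s₀)
        (0, (letters S).getD (0 + (Finite.equivFin S s).1) s₀ :: Y) = _
      rw [zero_add, getD_letters, ih]
      simp
  unfold undo
  rw [h1]
  simp

theorem ucode_length (s : S) : (ucode s).length ≤ Nat.card S := by
  unfold ucode
  have h : (Finite.equivFin S s).1 < Nat.card S := (Finite.equivFin S s).2
  simp only [List.length_append, List.length_replicate, List.length_singleton]
  omega

theorem flatMap_ucode_length (x : List S) : (x.flatMap ucode).length ≤ Nat.card S * x.length := by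
  induction x with
  | nil => simp
  | cons s x ih =>
    rw [List.flatMap_cons, List.length_append, List.length_cons, mul_add, mul_one]
    have := ucode_length s
    omega

theorem sz_letter (s : S) : sz s ≤ 2 * Nat.card S + 1 := by
  have h : (Finite.equivFin S s).1 < Nat.card S := (Finite.equivFin S s).2
  have e : sz s = sz ((Finite.equivFin S s).1 : ℕ) := rfl
  rw [e, sz_nat]
  omega

theorem pt_undo (s₀ : S) : PT (undo s₀) := by
  have a1 : PT (fun x : List Bool × (ℕ × List S) × Bool => x.2.1) := PT.snd.fst'
  have ab : PT (fun x : List Bool × (ℕ × List S) × Bool => x.2.2) := PT.snd.snd'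
  have hstep : PT (fun x : List Bool × (ℕ × List S) × Bool => ucStep s₀ x.2.1 x.2.2) := by
    unfold ucStep
    refine PT.cond ab (a1.fst'.succ.pair a1.snd') ((PT.const 0).pair (PT.cons ?_ a1.snd'))
    exact PT.getD (l := fun _ : List Bool × (ℕ × List S) × Bool => letters S) (PT.const _)
      a1.fst' (PT.const s₀)
  have hsz : ∀ (l : List Bool) (st : ℕ × List S),
      sz (l.foldl (ucStep s₀) st) ≤ sz st + (2 * Nat.card S + 2) * l.length := by
    intro l
    induction l with
    | nil => intro st; simp
    | cons b l ih =>
      intro st
      rw [List.foldl_cons, List.length_cons, mul_add, mul_one]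
      have h1 := ih (ucStep s₀ st b)
      have h2 : sz (ucStep s₀ st b) ≤ sz st + (2 * Nat.card S + 2) := by
        obtain ⟨n, Y⟩ := st
        have e0 : sz ((n, Y) : ℕ × List S) = sz n + sz Y + 1 := sz_pair n Y
        cases b with
        | true =>
          show sz ((n + 1, Y) : ℕ × List S) ≤ _
          rw [e0, sz_pair, sz_nat, sz_nat]
          omega
        | false =>
          show sz ((0, (letters S).getD n s₀ :: Y) : ℕ × List S) ≤ _
          rw [e0, sz_pair, sz_nat, sz_nat, sz_cons]
          have := sz_letter ((letters S).getD n s₀)
          omega
      omega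
  have h : PT (fun l : List Bool => l.foldl (ucStep s₀) (0, [])) := by
    refine PT.foldl (l := fun l : List Bool => l) (s := fun _ => ((0, []) : ℕ × List S))
      (g := fun x : List Bool × (ℕ × List S) × Bool => ucStep s₀ x.2.1 x.2.2) PT.id
      (PT.const _) hstep ((2 * Polynomial.C (Nat.card S) + 2) * Polynomial.X + 3) ?_
    intro l l' hl'
    have h1 := hsz l' (0, [])
    have h2 := hl'.length_le
    have h3 := length_le_sz l
    have h4 : sz ((0, []) : ℕ × List S) = 3 := rfl
    have h5 : (2 * Nat.card S + 2) * l'.length ≤ (2 * Nat.card S + 2) * sz l :=
      Nat.mul_le_mul_left _ (by omega)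
    simp only [Polynomial.eval_add, Polynomial.eval_mul, Polynomial.eval_X,
      Polynomial.eval_ofNat, Polynomial.eval_C]
    show sz (l'.foldl (ucStep s₀) (0, [])) ≤ _
    omega
  exact h.snd'.reverse

/-- **A deterministic OR-compression over a finite alphabet, in binary, is a nondeterministic
one.** -/
theorem ORCompressionLog.nondeterministic [Nonempty S] {R R' : Set (List S)}
    {D : List (List S) → List S} (h : ORCompressionLog R R' D) :
    ∃ w : S → List Bool, Function.Injective (fun x : List S => x.flatMap w) ∧
      ∃ D' : List Bool × List (List Bool) → Option (List Bool),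
        (∀ (g : List Bool) (xs : List (List S)),
          D' (g, binary w xs) = some ((D xs).flatMap w)) ∧
        NDCompression w R {v | ∃ y ∈ R', v = y.flatMap w} D' := by
  have : Inhabited S := Classical.inhabited_of_nonempty inferInstance
  have hs : PT (seqStr : List (List S) → List (Option S)) := pt_seqStr
  have hD : PT D := PT.ofTM2 (ea := seqStr) (eb := fun x : List S => x) (f := D)
    h.polyTime.some hs
  obtain ⟨c, m, pm, hm⟩ := h.short
  have hinj : Function.Injective (fun x : List S => x.flatMap ucode) := fun x y hxy => by
    rw [← undo_ucode default x, ← undo_ucode default y]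
    exact congrArg _ hxy
  have hdec : ∀ xs : List (List S), (binary ucode xs).map (undo default) = xs := by
    intro xs
    unfold binary
    rw [List.map_map]
    conv_rhs => rw [← List.map_id xs]
    exact List.map_congr_left fun x _ => undo_ucode default x
  have hD' : ∀ (g : List Bool) (xs : List (List S)),
      (fun z : List Bool × List (List Bool) =>
        some ((D (z.2.map (undo default))).flatMap ucode)) (g, binary ucode xs) =
        some ((D xs).flatMap ucode) := by
    intro g xs
    show some ((D ((binary ucode xs).map (undo default))).flatMap ucode) = _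
    rw [hdec]
  refine ⟨ucode, hinj, fun z => some ((D (z.2.map (undo default))).flatMap ucode), hD',
    polyTime_guess ?_, 0, fun xs hxs y hy => ?_, c * Nat.card S, m, pm, fun n =>
      ⟨(hm n).1, (hm n).2.1, fun xs hxs hx => ⟨_, ⟨[], Nat.zero_le _, hD' [] xs⟩, ?_⟩⟩⟩
  · have h1 : PT (fun z : List Bool × List (List Bool) => z.2.map (undo default : _ → List S)) :=
      PT.map (l := fun z : List Bool × List (List Bool) => z.2)
        (g := fun x : (List Bool × List (List Bool)) × List Bool => (undo default x.2 : List S))
        PT.snd ((pt_undo default).comp PT.snd)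
    have h2 : PT (fun x : List S => x.flatMap ucode) :=
      PT.flatMap (l := fun x : List S => x) (g := fun y : List S × S => ucode y.2) PT.id
        ((PT.ofFinite ucode).comp PT.snd)
    exact (PT.const true).cons (h2.comp (hD.comp h1))
  · obtain ⟨g, _, hg⟩ := hy
    rw [hD' g xs, Option.some.injEq] at hg
    rw [← h.correct xs hxs, ← hg]
    constructor
    · rintro ⟨y', hy', he⟩
      rw [hinj he]
      exact hy'
    · exact fun h' => ⟨_, h', rfl⟩
  · have h1 := (hm n).2.2 xs hxs fun x hx' => (hx x hx').1
    refine (flatMap_ucode_length _).trans ?_
    calc Nat.card S * (D xs).length ≤ Nat.card S * (c * m n * (Nat.log 2 n + 1)) :=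
          Nat.mul_le_mul_left _ h1
      _ = c * Nat.card S * m n * (Nat.log 2 n + 1) := by ring

/-- an OR-compression of an NP-hard language to `O (log n)` symbols per string implies
NP = coNP -/
theorem np_eq_conp_log [Nonempty S] {R R' : Set (List S)} (hR : NPHard R)
    {D : List (List S) → List S} (hD : ORCompressionLog R R' D) : NPeqCoNP := by
  obtain ⟨w, _, D', _, h⟩ := hD.nondeterministic
  exact np_eq_conp_nd hR h

end

end ORDist
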