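import Pool.Agent.Work.MP_609cce_lc.OCheckPT
import Pool.Agent.Work.MP_609cce_lc.OStrong

/-!
# Checking pruning certificates with a table of guesses

`F (g, A)` is the output (coded, nonempty) for the guess `g` on the instances of the nodes in the
list `A`, or the empty string.
-/

open PTime

namespace ORDist

/-- a table of guesses -/
abbrev Table := List (List (List Bool) × List Bool)

/-- the guess for the list `A` -/
def look (T : Table) (A : List (List Bool)) : List Bool :=
  ((T.filter fun e => decide (e.1 = A)).headD ([], [])).2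

/-- the value of the list `A` for the guess `g`: the output, or the list itself if there is no
output -/
def valG (F : List Bool × List (List Bool) → List Bool) (g : List Bool) (A : List (List Bool)) :
    List Bool × List (List Bool) :=
  bif (F (g, A)).isEmpty then ([], A) else (F (g, A), [])

section

variable {γ : Type} [DecidableEq γ] {V : List Bool → Bool} {E₁ E₂ : List (List Bool) → γ}

theorem stepOK_congr {s : Step} (h1 : E₁ s.1 = E₂ s.1) (h2 : E₁ s.2.1 = E₂ s.2.1)
    (U : List (List Bool)) : stepOK E₁ U s = stepOK E₂ U s := by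
  unfold stepOK
  rw [h1, h2]

theorem prune_congr {l : List Step} (h : ∀ s ∈ l, E₁ s.1 = E₂ s.1 ∧ E₁ s.2.1 = E₂ s.2.1)
    (U : List (List Bool)) : prune E₁ U l = prune E₂ U l := by
  unfold prune
  refine List.foldl_ext _ _ _ fun U s hs => ?_
  unfold applyStep
  rw [stepOK_congr (h s hs).1 (h s hs).2]

theorem check_congr {c : List Lev}
    (h : ∀ r ∈ c, ∀ s ∈ r.2, E₁ s.1 = E₂ s.1 ∧ E₁ s.2.1 = E₂ s.2.1) :
    check V E₁ c = check V E₂ c := by
  unfold check
  rw [List.foldl_ext (level V E₁) (level V E₂) _ fun st r hr => ?_]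
  unfold level
  rw [prune_congr (h r hr)]

end

/-- the table of the guesses `gd` for the lists of a certificate -/
def tableOf (gd : List (List Bool) → List Bool) (c : List Lev) : Table :=
  c.flatMap fun r => r.2.flatMap fun s => [(s.1, gd s.1), (s.2.1, gd s.2.1)]

theorem mem_tableOf {gd : List (List Bool) → List Bool} {c : List Lev}
    {e : List (List Bool) × List Bool} (he : e ∈ tableOf gd c) :
    e.2 = gd e.1 ∧ ∃ r ∈ c, ∃ s ∈ r.2, e.1 = s.1 ∨ e.1 = s.2.1 := by
  obtain ⟨r, hr, he⟩ := List.mem_flatMap.1 he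
  obtain ⟨s, hs, he⟩ := List.mem_flatMap.1 he
  simp only [List.mem_cons, List.not_mem_nil, or_false] at he
  rcases he with rfl | rfl
  · exact ⟨rfl, r, hr, s, hs, Or.inl rfl⟩
  · exact ⟨rfl, r, hr, s, hs, Or.inr rfl⟩

theorem look_tableOf {gd : List (List Bool) → List Bool} {c : List Lev} {r : Lev} (hr : r ∈ c)
    {s : Step} (hs : s ∈ r.2) :
    look (tableOf gd c) s.1 = gd s.1 ∧ look (tableOf gd c) s.2.1 = gd s.2.1 := by
  have key : ∀ A : List (List Bool), (A, gd A) ∈ tableOf gd c →
      look (tableOf gd c) A = gd A := by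
    intro A hA
    unfold look
    have h1 : (A, gd A) ∈ (tableOf gd c).filter fun e => decide (e.1 = A) :=
      List.mem_filter.2 ⟨hA, by simp⟩
    cases h : (tableOf gd c).filter fun e => decide (e.1 = A) with
    | nil => rw [h] at h1; exact absurd h1 (by simp)
    | cons e l =>
      have h2 : e ∈ (tableOf gd c).filter fun e => decide (e.1 = A) := by rw [h]; simp
      obtain ⟨h3, h4⟩ := List.mem_filter.1 h2
      rw [decide_eq_true_eq] at h4
      show e.2 = gd A
      rw [(mem_tableOf h3).1, h4]
  constructor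
  · exact key _ (List.mem_flatMap.2 ⟨r, hr, List.mem_flatMap.2 ⟨s, hs, by simp⟩⟩)
  · exact key _ (List.mem_flatMap.2 ⟨r, hr, List.mem_flatMap.2 ⟨s, hs, by simp⟩⟩)

theorem pt_look {α : Type} [Code α] {T : α → Table} {A : α → List (List Bool)} (hT : PT T)
    (hA : PT A) : PT (fun a => look (T a) (A a)) := by
  have h : PT (fun a => (T a).filter fun e => decide (e.1 = A a)) :=
    PT.filter (p := fun x : α × List (List Bool) × List Bool => decide (x.2.1 = A x.1)) hT
      (PT.eq PT.snd.fst' (hA.comp PT.fst))
  exact (h.headD (PT.const ([], []))).snd'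

theorem sz_tableOf (gd : List (List Bool) → List Bool) {c : List Lev} {B : ℕ}
    (hB : ∀ r ∈ c, ∀ s ∈ r.2, (gd s.1).length ≤ B ∧ (gd s.2.1).length ≤ B) :
    sz (tableOf gd c) ≤ 2 * sz c * (sz c + (4 * B + 1) + 1 + 1) + 1 := by
  have h1 : (tableOf gd c).length ≤ 2 * sz c := by
    unfold tableOf
    clear hB
    induction c with
    | nil => simp
    | cons r c ih =>
      rw [List.flatMap_cons, List.length_append]
      have h2 : (r.2.flatMap fun s => [(s.1, gd s.1), (s.2.1, gd s.2.1)]).length =
          2 * r.2.length := by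
        induction r.2 with
        | nil => rfl
        | cons s l ihl => rw [List.flatMap_cons, List.length_append, ihl]; simp; omega
      have h3 := length_le_sz r.2
      have h4 : sz (r :: c) = sz r + sz c + 1 := sz_cons r c
      have h5 : sz r = sz r.1 + sz r.2 + 1 := sz_pair r.1 r.2
      omega
  have h2 := sz_list_le (l := tableOf gd c) (B := sz c + (4 * B + 1) + 1) fun e he => by
    obtain ⟨h3, r, hr, s, hs, h4⟩ := mem_tableOf he
    have e1 : sz r ≤ sz c := sz_mem hr
    have e2 : sz r = sz r.1 + sz r.2 + 1 := sz_pair r.1 r.2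
    have e3 : sz s ≤ sz r.2 := sz_mem hs
    have e4 : sz s = sz s.1 + sz s.2 + 1 := sz_pair s.1 s.2
    have e5 : sz s.2 = sz s.2.1 + sz s.2.2 + 1 := sz_pair s.2.1 s.2.2
    have e6 : sz e = sz e.1 + sz e.2 + 1 := sz_pair e.1 e.2
    obtain ⟨b1, b2⟩ := hB r hr s hs
    have e7 : e.2.length ≤ B := by
      rw [h3]
      rcases h4 with h4 | h4
      · rw [h4]; exact b1
      · rw [h4]; exact b2
    have e8 := sz_str e.2
    have e9 : sz e.1 ≤ sz c := by
      rcases h4 with h4 | h4
      · rw [h4]; omega
      · rw [h4]; omega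
    omega
  refine h2.trans (Nat.add_le_add_right ?_ 1)
  exact Nat.mul_le_mul_right _ h1

end ORDist
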