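import Pool.Agent.Work.MP_609cce_lc.OrdColl

/-!
# Collisions for compressions to `t` symbols per instance
-/

namespace ORDist

open Pool.Agent.Work.MP_609cce_lc.Ord

/-- number of members of a list which force a collision, for `t` symbols per instance -/
def needPer (card t m : ℕ) : ℕ := m * ((card + 1) ^ t + 1)

/-- compression of `m` instances to `t m` symbols has collisions -/
theorem exists_collision_per {β Sg : Type} [DecidableEq β] [Fintype Sg] (G : List β → List Sg)
    (t m : ℕ) (hm : 1 ≤ m) (cur : List β) (hnd : cur.Nodup)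
    (hlen : needPer (Fintype.card Sg) t m ≤ cur.length)
    (hG : ∀ S : List β, S ⊆ cur → S.length = m → (G S).length ≤ t * m) :
    ∃ (S T : List β) (u : β), S ⊆ cur ∧ T ⊆ cur ∧ S.length = m ∧ T.length = m ∧ S.Nodup ∧
      T.Nodup ∧ u ∈ S ∧ u ∉ T ∧ G S = G T := by
  refine exists_collision G cur hnd m _ hG ?_
  calc (Fintype.card Sg + 1) ^ (t * m)
      = ((Fintype.card Sg + 1) ^ t) ^ m := by rw [← pow_mul]
    _ < ((Fintype.card Sg + 1) ^ t + 1) ^ m :=
        Nat.pow_lt_pow_left (Nat.lt_succ_self _) (by omega)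
    _ ≤ (m * ((Fintype.card Sg + 1) ^ t + 1)).choose m := pow_le_choose_mul _ _
    _ ≤ cur.length.choose m := Nat.choose_le_choose m hlen

theorem pow_log_succ_le (n : ℕ) : 2 ^ (Nat.log 2 n + 1) ≤ 2 * n + 2 := by
  rcases Nat.eq_zero_or_pos n with rfl | hn
  · simp
  · rw [pow_succ, mul_comm]
    exact (Nat.mul_le_mul_left _ (Nat.pow_log_le_self 2 (by omega))).trans (Nat.le_add_right _ _)

/-- for `O (log n)` symbols per instance and polynomially many instances this number is
polynomially bounded -/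
theorem needPer_poly (card c : ℕ) (P N : Polynomial ℕ) : ∃ Q : Polynomial ℕ, ∀ n m : ℕ,
    m ≤ P.eval n → needPer card (c * (Nat.log 2 (N.eval n) + 1)) m ≤ Q.eval n := by
  refine ⟨P * ((2 * N + 2) ^ ((Nat.log 2 (card + 1) + 1) * c) + 1), fun n m hmn => ?_⟩
  have h1 : card + 1 ≤ 2 ^ (Nat.log 2 (card + 1) + 1) :=
    (Nat.lt_pow_succ_log_self (by norm_num) _).le
  have h2 : (card + 1) ^ (c * (Nat.log 2 (N.eval n) + 1)) ≤
      (2 * N.eval n + 2) ^ ((Nat.log 2 (card + 1) + 1) * c) := by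
    calc (card + 1) ^ (c * (Nat.log 2 (N.eval n) + 1))
        ≤ (2 ^ (Nat.log 2 (card + 1) + 1)) ^ (c * (Nat.log 2 (N.eval n) + 1)) :=
          Nat.pow_le_pow_left h1 _
      _ = (2 ^ (Nat.log 2 (N.eval n) + 1)) ^ ((Nat.log 2 (card + 1) + 1) * c) := by
          rw [← pow_mul, ← pow_mul]; ring_nf
      _ ≤ (2 * N.eval n + 2) ^ ((Nat.log 2 (card + 1) + 1) * c) :=
          Nat.pow_le_pow_left (pow_log_succ_le _) _
  simp only [Polynomial.eval_mul, Polynomial.eval_add, Polynomial.eval_pow,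
    Polynomial.eval_one, Polynomial.eval_ofNat]
  exact Nat.mul_le_mul hmn (Nat.add_le_add_right h2 1)

end ORDist
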