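import Pool.Agent.Work.MP_609cce_lc_nd.NMain
import Pool.Agent.Work.MP_609cce_lc.PwOut

/-!
# If NP = coNP then NP-complete languages have nondeterministic OR-distillations
-/

namespace ORDist

open PTime Turing

/-- functions of a guess and a sequence in the calculus are polynomial time -/
theorem polyTime_guess {D : List Bool × List (List Bool) → Option (List Bool)}
    (h : PT (fun z => optBits (D z))) : PolyTime guessStr optBits D := by
  have h1 : PT (fun l : List Bool => optBits (D ((unseq l).headD [], (unseq l).tail))) :=
    h.comp (f := fun l : List Bool => ((unseq l).headD [], (unseq l).tail))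
      ((pt_unseq.headD (PT.const [])).pair pt_unseq.tail)
  obtain ⟨c⟩ := PT.polyTime_raw (ea := guessStr) (F := fun z => optBits (D z)) h1 (fun z => by
    have e : guessStr z = seqBits (z.1 :: z.2) := rfl
    rw [e, unseq_seqBits]
    rfl)
  exact ⟨⟨c.toTM2ComputableAux, c.time, c.outputsFun⟩⟩

/-- certificates: the kind, and pairs of a string of the sequence and a witness -/
abbrev Cert := Bool × List (List Bool × List Bool)

/-- the certificate given by the guess `g` -/
def certOf (g : List Bool) : Cert := Dec.ofT (parseT g)

theorem certOf_enc (c : Cert) : certOf (enc c) = c := by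
  unfold certOf
  rw [parse_enc, Dec.ofT_toT]

/-- the algorithm: `V₀` and `V₁` are the verifiers of the complement and of the language -/
def ndAlg (V₀ V₁ : List Bool × List Bool → Bool) (p₀ p₁ : Polynomial ℕ) (y₀ y₁ : List Bool)
    (z : List Bool × List (List Bool)) : Option (List Bool) :=
  bif decide ((certOf z.1).2.map Prod.fst = z.2) &&
    (bif (certOf z.1).1 then
      (certOf z.1).2.all (fun e => decide (e.2.length ≤ p₀.eval e.1.length) && V₀ e)
    else (certOf z.1).2.any (fun e => decide (e.2.length ≤ p₁.eval e.1.length) && V₁ e)) then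
    some (bif (certOf z.1).1 then y₀ else y₁) else none

theorem pt_ndAlg {V₀ V₁ : List Bool × List Bool → Bool} (h0 : PT V₀) (h1 : PT V₁)
    (p₀ p₁ : Polynomial ℕ) (y₀ y₁ : List Bool) :
    PT (fun z => optBits (ndAlg V₀ V₁ p₀ p₁ y₀ y₁ z)) := by
  have hc : PT (fun z : List Bool × List (List Bool) => certOf z.1) :=
    (Dec.pt (γ := Cert)).comp PT.fst.parseT
  have ht : ∀ (V : List Bool × List Bool → Bool) (p : Polynomial ℕ), PT V →
      PT (fun x : (List Bool × List (List Bool)) × List Bool × List Bool =>
        decide (x.2.2.length ≤ p.eval x.2.1.length) && V x.2) := fun V p hV =>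
    (PT.le PT.snd.snd'.length (PT.polyEval p PT.snd.fst'.length)).and (hV.comp PT.snd)
  have hm : PT (fun z : List Bool × List (List Bool) =>
      decide ((certOf z.1).2.map Prod.fst = z.2)) :=
    PT.eq (PT.map (l := fun z : List Bool × List (List Bool) => (certOf z.1).2)
      (g := fun x : (List Bool × List (List Bool)) × List Bool × List Bool => x.2.1) hc.snd'
      PT.snd.fst') PT.snd
  have ha : PT (fun z : List Bool × List (List Bool) => (certOf z.1).2.all
      (fun e => decide (e.2.length ≤ p₀.eval e.1.length) && V₀ e)) :=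
    PT.all (l := fun z : List Bool × List (List Bool) => (certOf z.1).2)
      (p := fun x : (List Bool × List (List Bool)) × List Bool × List Bool =>
        decide (x.2.2.length ≤ p₀.eval x.2.1.length) && V₀ x.2) hc.snd' (ht V₀ p₀ h0)
  have hb : PT (fun z : List Bool × List (List Bool) => (certOf z.1).2.any
      (fun e => decide (e.2.length ≤ p₁.eval e.1.length) && V₁ e)) :=
    PT.any (l := fun z : List Bool × List (List Bool) => (certOf z.1).2)
      (p := fun x : (List Bool × List (List Bool)) × List Bool × List Bool =>
        decide (x.2.2.length ≤ p₁.eval x.2.1.length) && V₁ x.2) hc.snd' (ht V₁ p₁ h1)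
  refine (PT.cond (hm.and (PT.cond hc.fst' ha hb))
    ((PT.const true).cons (PT.cond hc.fst' (PT.const y₀) (PT.const y₁)))
    (PT.const [])).congr fun z => ?_
  unfold ndAlg
  cases (decide ((certOf z.1).2.map Prod.fst = z.2) &&
    (bif (certOf z.1).1 then
      (certOf z.1).2.all (fun e => decide (e.2.length ≤ p₀.eval e.1.length) && V₀ e)
    else (certOf z.1).2.any (fun e => decide (e.2.length ≤ p₁.eval e.1.length) && V₁ e)))
  · rfl
  · rfl

theorem seqBits_bounds (xs : List (List Bool)) : xs.length ≤ (seqBits xs).length ∧
    ∀ x ∈ xs, x.length ≤ (seqBits xs).length := by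
  induction xs with
  | nil => exact ⟨le_rfl, by simp⟩
  | cons x xs ih =>
    have h : (seqBits (x :: xs)).length = 2 * x.length + 1 + (seqBits xs).length :=
      length_pairStr x (seqBits xs)
    refine ⟨by rw [h, List.length_cons]; omega, fun u hu => ?_⟩
    rw [h]
    rcases List.mem_cons.1 hu with rfl | hu
    · omega
    · have := ih.2 u hu
      omega

/-- an NP-hard language is neither empty nor full -/
theorem nontrivial_of_hard {S : Type} {R : Set (List S)} (hR : NPHard R) :
    ∃ y₀ y₁ : List S, y₀ ∉ R ∧ y₁ ∈ R := by
  obtain ⟨f, _, hf⟩ := hR ∅ (inNP_of_PT (V := fun _ => false) (PT.const false) 0 (fun x => by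
    simp))
  obtain ⟨g, _, hg⟩ := hR Set.univ (inNP_of_PT (V := fun _ => true) (PT.const true) 0 (fun x => by
    simp))
  exact ⟨f [], g [], fun h => (hf []).2 h, (hg []).1 trivial⟩

/-- verifiers in the calculus -/
theorem InNP.pt {L : Set (List Bool)} (h : InNP L) : ∃ (V : List Bool × List Bool → Bool)
    (p : Polynomial ℕ), PT V ∧
    ∀ x : List Bool, x ∈ L ↔ ∃ y : List Bool, y.length ≤ p.eval x.length ∧ V (x, y) = true := by
  obtain ⟨V, p, hV0, hL⟩ := h
  have h : PT (fun z : List Bool × List Bool => [V z]) := PT.ofTM2 hV0.some pt_pairStr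
  exact ⟨V, p, (h.headD (PT.const false)).congr fun z => rfl, hL⟩

/-- if NP = coNP then every NP-complete language has a nondeterministic OR-distillation -/
theorem nd_of_np_eq_conp {R : Set (List Bool)} (hNP : InNP R) (hR : NPHard R)
    (h : NPeqCoNP) : ∃ D, NDDistillation R R D := by
  classical
  obtain ⟨y₀, y₁, hy0, hy1⟩ := nontrivial_of_hard hR
  obtain ⟨V₁, p₁, hV1, hL1⟩ := hNP.pt
  obtain ⟨V₀, p₀, hV0, hL0⟩ := (h R hNP).pt
  let pg : Polynomial ℕ := 3 + (Polynomial.X * (4 * Polynomial.X + 1 + (4 * (p₀ + p₁) + 1) + 1 + 1)
    + 1) + 1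
  refine ⟨ndAlg V₀ V₁ p₀ p₁ y₀ y₁, polyTime_guess (pt_ndAlg hV0 hV1 p₀ p₁ y₀ y₁), pg,
    Polynomial.C (y₀.length + y₁.length), fun xs hxs => ⟨?_, ?_⟩⟩
  · rintro y ⟨g, _, hg⟩
    unfold ndAlg at hg
    generalize certOf g = ct at hg
    obtain ⟨b, ws⟩ := ct
    simp only at hg
    by_cases hm : ws.map Prod.fst = xs
    · rw [decide_eq_true hm, Bool.true_and] at hg
      cases b with
      | true =>
        simp only [cond_true] at hg
        cases ha : ws.all (fun e => decide (e.2.length ≤ p₀.eval e.1.length) && V₀ e) with
        | false => rw [ha, cond_false] at hg; exact absurd hg (by simp)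
        | true =>
          rw [ha, cond_true, Option.some.injEq] at hg
          rw [← hg]
          refine ⟨fun h' => absurd h' hy0, ?_⟩
          rintro ⟨x, hx, hxR⟩
          rw [← hm] at hx
          obtain ⟨e, he, rfl⟩ := List.mem_map.1 hx
          have h1 := List.all_eq_true.1 ha e he
          simp only [Bool.and_eq_true, decide_eq_true_eq] at h1
          exact absurd hxR ((hL0 e.1).2 ⟨e.2, h1.1, h1.2⟩)
      | false =>
        simp only [cond_false] at hg
        cases ha : ws.any (fun e => decide (e.2.length ≤ p₁.eval e.1.length) && V₁ e) with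
        | false => rw [ha, cond_false] at hg; exact absurd hg (by simp)
        | true =>
          rw [ha, cond_true, Option.some.injEq] at hg
          rw [← hg]
          refine ⟨fun _ => ?_, fun _ => hy1⟩
          obtain ⟨e, he, h1⟩ := List.any_eq_true.1 ha
          simp only [Bool.and_eq_true, decide_eq_true_eq] at h1
          refine ⟨e.1, ?_, (hL1 e.1).2 ⟨e.2, h1.1, h1.2⟩⟩
          rw [← hm]
          exact List.mem_map.2 ⟨e, he, rfl⟩
    · rw [decide_eq_false hm, Bool.false_and, cond_false] at hg
      exact absurd hg (by simp)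
  · intro n _
    obtain ⟨hb1, hb2⟩ := seqBits_bounds xs
    -- the size of the guesses
    have hlen : ∀ (b : Bool) (wit : List Bool → List Bool),
        (∀ x, (wit x).length ≤ (p₀ + p₁).eval x.length) →
        (enc ((b, xs.map fun x => (x, wit x)) : Cert)).length ≤
          pg.eval (seqBits xs).length := by
      intro b wit hwit
      have e0 : (enc ((b, xs.map fun x => (x, wit x)) : Cert)).length =
        sz ((b, xs.map fun x => (x, wit x)) : Cert) := rfl
      have e1 : sz ((b, xs.map fun x => (x, wit x)) : Cert) =
        sz b + sz (xs.map fun x => (x, wit x)) + 1 := sz_pair _ _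
      have e2 := sz_bool b
      have e3 := sz_list_le (l := xs.map fun x => (x, wit x))
        (B := 4 * (seqBits xs).length + 1 + (4 * (p₀ + p₁).eval (seqBits xs).length + 1) + 1)
        fun e he => by
          obtain ⟨x, hx, rfl⟩ := List.mem_map.1 he
          have f1 : sz (x, wit x) = sz x + sz (wit x) + 1 := sz_pair _ _
          have f2 := sz_str x
          have f3 := sz_str (wit x)
          have f4 := hwit x
          have f5 : (p₀ + p₁).eval x.length ≤ (p₀ + p₁).eval (seqBits xs).length :=
            eval_mono _ (hb2 x hx)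
          have f6 := hb2 x hx
          omega
      rw [List.length_map] at e3
      have e4 : xs.length * (4 * (seqBits xs).length + 1 +
          (4 * (p₀ + p₁).eval (seqBits xs).length + 1) + 1 + 1) ≤
          (seqBits xs).length * (4 * (seqBits xs).length + 1 +
          (4 * (p₀ + p₁).eval (seqBits xs).length + 1) + 1 + 1) :=
        Nat.mul_le_mul_right _ hb1
      simp only [pg, Polynomial.eval_add, Polynomial.eval_mul, Polynomial.eval_X,
        Polynomial.eval_ofNat, Polynomial.eval_one] at e3 e4 ⊢
      omega
    have hmap : ∀ wit : List Bool → List Bool,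
        (xs.map fun x => (x, wit x)).map Prod.fst = xs := by
      intro wit
      rw [List.map_map]
      conv_rhs => rw [← List.map_id xs]
      rfl
    by_cases hyes : ∃ x ∈ xs, x ∈ R
    · -- witnesses
      have hw : ∀ x : List Bool, ∃ y : List Bool, y.length ≤ (p₀ + p₁).eval x.length ∧
          (x ∈ R → y.length ≤ p₁.eval x.length ∧ V₁ (x, y) = true) := by
        intro x
        by_cases hx : x ∈ R
        · obtain ⟨y, h1, h2⟩ := (hL1 x).1 hx
          refine ⟨y, ?_, fun _ => ⟨h1, h2⟩⟩
          rw [Polynomial.eval_add]
          omega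
        · exact ⟨[], Nat.zero_le _, fun h => absurd h hx⟩
      choose wit hw1 hw2 using hw
      refine ⟨y₁, ⟨enc ((false, xs.map fun x => (x, wit x)) : Cert), hlen _ _ hw1, ?_⟩, ?_⟩
      · have hany : (xs.map fun x => (x, wit x)).any
            (fun e => decide (e.2.length ≤ p₁.eval e.1.length) && V₁ e) = true := by
          obtain ⟨x, hx, hxR⟩ := hyes
          refine List.any_eq_true.2 ⟨(x, wit x), List.mem_map.2 ⟨x, hx, rfl⟩, ?_⟩
          simp only [Bool.and_eq_true, decide_eq_true_eq]
          exact hw2 x hxR
        unfold ndAlg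
        simp only [certOf_enc]
        rw [decide_eq_true (hmap wit), Bool.true_and, cond_false, cond_false, hany, cond_true]
      · simp
    · have hw : ∀ x : List Bool, ∃ y : List Bool, y.length ≤ (p₀ + p₁).eval x.length ∧
          (x ∈ xs → y.length ≤ p₀.eval x.length ∧ V₀ (x, y) = true) := by
        intro x
        by_cases hx : x ∈ xs
        · obtain ⟨y, h1, h2⟩ := (hL0 x).1 fun h' => hyes ⟨x, hx, h'⟩
          refine ⟨y, ?_, fun _ => ⟨h1, h2⟩⟩
          rw [Polynomial.eval_add]
          omega
        · exact ⟨[], Nat.zero_le _, fun h => absurd h hx⟩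
      choose wit hw1 hw2 using hw
      refine ⟨y₀, ⟨enc ((true, xs.map fun x => (x, wit x)) : Cert), hlen _ _ hw1, ?_⟩, ?_⟩
      · have hall : (xs.map fun x => (x, wit x)).all
            (fun e => decide (e.2.length ≤ p₀.eval e.1.length) && V₀ e) = true := by
          refine List.all_eq_true.2 fun e he => ?_
          obtain ⟨x, hx, rfl⟩ := List.mem_map.1 he
          simp only [Bool.and_eq_true, decide_eq_true_eq]
          exact hw2 x hx
        unfold ndAlg
        simp only [certOf_enc]
        rw [decide_eq_true (hmap wit), Bool.true_and, cond_true, cond_true, hall, cond_true]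
      · simp

/-- an OR-distillation of a language of bit strings is a nondeterministic OR-distillation -/
theorem ORDistillation.nondeterministic {R R' : Set (List Bool)}
    {D : List (List Bool) → List Bool} (h : ORDistillation R R' D) :
    NDDistillation R R' fun z => some (D z.2) := by
  letI : Code (Option Bool) := finCode (Option Bool)
  have hs : PT (seqStr : List (List Bool) → List (Option Bool)) :=
    PT.flatMap (l := fun xs : List (List Bool) => xs)
      (g := fun x : List (List Bool) × List Bool => x.2.map some ++ [none]) PT.id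
      ((PT.map (l := fun x : List (List Bool) × List Bool => x.2)
        (g := fun y : (List (List Bool) × List Bool) × Bool => some y.2) PT.snd
        ((PT.ofFinite (some : Bool → Option Bool)).comp PT.snd)).append (PT.const [none]))
  have hD : PT D := PT.ofTM2 (ea := seqStr) (eb := fun x : List Bool => x) (f := D)
    h.polyTime.some hs
  obtain ⟨q, hq⟩ := h.short
  refine ⟨polyTime_guess ((PT.const true).cons (hD.comp PT.snd)), 0, q, fun xs hxs => ⟨?_, ?_⟩⟩
  · rintro y ⟨g, _, hg⟩
    rw [Option.some.injEq] at hg
    rw [← hg]
    exact h.correct xs hxs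
  · exact fun n hn => ⟨D xs, ⟨[], Nat.zero_le _, rfl⟩, hq n xs hxs hn⟩

end ORDist
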