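import Pool.Agent.Work.MP_609cce_lc_nd.NDefs
import Pool.Agent.Work.MP_609cce_lc.OConv
import Pool.Agent.Work.MP_609cce_lc.OCheckPT

/-!
# Coding and decoding of sequences of bit strings in the calculus
-/

open Turing PTime

namespace ORDist

theorem seqBits_eq (xs : List (List Bool)) :
    seqBits xs = xs.flatMap fun x => x.flatMap (fun b => [true, b]) ++ [false] := by
  induction xs with
  | nil => rfl
  | cons x xs ih =>
    rw [List.flatMap_cons, ← ih]
    show x.flatMap (fun b => [true, b]) ++ false :: seqBits xs = _
    simp

theorem pt_seqBits : PT seqBits := by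
  have h0 : PT (fun x : List Bool => x.flatMap fun b => [true, b]) :=
    PT.flatMap (l := fun x : List Bool => x) (g := fun y : List Bool × Bool => [true, y.2]) PT.id
      ((PT.const true).cons (PT.snd.cons (PT.const [])))
  have h1 : PT (fun xs : List (List Bool) => xs.flatMap fun x =>
      x.flatMap (fun b => [true, b]) ++ [false]) :=
    PT.flatMap (l := fun xs : List (List Bool) => xs)
      (g := fun y : List (List Bool) × List Bool => y.2.flatMap (fun b => [true, b]) ++ [false])
      PT.id ((h0.comp PT.snd).append (PT.const [false]))
  exact h1.congr fun xs => (seqBits_eq xs).symm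

theorem pt_guessStr : PT guessStr :=
  pt_pairStr.comp (PT.fst.pair (pt_seqBits.comp PT.snd))

/-- state: (a data bit is expected, reversed current string, reversed list of reversed strings) -/
def usStep (s : Bool × List Bool × List (List Bool)) (b : Bool) :
    Bool × List Bool × List (List Bool) :=
  bif s.1 then (false, b :: s.2.1, s.2.2)
  else bif b then (true, s.2)
  else (false, [], s.2.1 :: s.2.2)

/-- the inverse of `seqBits` -/
def unseq (l : List Bool) : List (List Bool) :=
  (l.foldl usStep (false, [], [])).2.2.reverse.map List.reverse

theorem unseq_seqBits (xs : List (List Bool)) : unseq (seqBits xs) = xs := by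
  have h1 : ∀ (x X : List Bool) (Y : List (List Bool)),
      (x.flatMap fun b => [true, b]).foldl usStep (false, X, Y) = (false, x.reverse ++ X, Y) := by
    intro x
    induction x with
    | nil => intro X Y; rfl
    | cons b x ih =>
      intro X Y
      show (x.flatMap fun b => [true, b]).foldl usStep (false, b :: X, Y) = _
      rw [ih]
      simp
  have h2 : ∀ (xs Y : List (List Bool)), (seqBits xs).foldl usStep (false, [], Y) =
      (false, [], (xs.map List.reverse).reverse ++ Y) := by
    intro xs
    induction xs with
    | nil => intro Y; rfl
    | cons x xs ih =>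
      intro Y
      show (x.flatMap (fun b => [true, b]) ++ false :: seqBits xs).foldl usStep (false, [], Y) = _
      rw [List.foldl_append, h1, List.append_nil]
      show (seqBits xs).foldl usStep (false, [], x.reverse :: Y) = _
      rw [ih]
      simp
  unfold unseq
  rw [h2]
  simp

theorem usStep_sz (s : Bool × List Bool × List (List Bool)) (b : Bool) :
    sz (usStep s b).2 ≤ sz s.2 + 5 := by
  obtain ⟨d, X, Y⟩ := s
  have hb := sz_bool b
  cases d with
  | true =>
    show sz (b :: X, Y) ≤ sz (X, Y) + 5
    rw [sz_pair, sz_pair, sz_cons]
    omega
  | false =>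
    cases b with
    | true => show sz (X, Y) ≤ sz (X, Y) + 5; omega
    | false =>
      show sz (([] : List Bool), X :: Y) ≤ sz (X, Y) + 5
      rw [sz_pair, sz_pair, sz_cons, sz_nil]
      omega

theorem us_sz (l : List Bool) : ∀ s : Bool × List Bool × List (List Bool),
    sz (l.foldl usStep s).2 ≤ sz s.2 + 5 * l.length := by
  induction l with
  | nil => intro s; simp
  | cons b l ih =>
    intro s
    rw [List.foldl_cons, List.length_cons]
    have := ih (usStep s b)
    have := usStep_sz s b
    omega

theorem pt_unseq : PT unseq := by
  have a1 : PT (fun x : List Bool × (Bool × List Bool × List (List Bool)) × Bool => x.2.1) :=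
    PT.fst.comp PT.snd
  have ab : PT (fun x : List Bool × (Bool × List Bool × List (List Bool)) × Bool => x.2.2) :=
    PT.snd.comp PT.snd
  have hstep : PT (fun x : List Bool × (Bool × List Bool × List (List Bool)) × Bool =>
      usStep x.2.1 x.2.2) := by
    unfold usStep
    refine PT.cond a1.fst' ?_ (PT.cond ab ?_ ?_)
    · exact (PT.const _).pair ((ab.cons a1.snd'.fst').pair a1.snd'.snd')
    · exact (PT.const _).pair a1.snd'
    · exact (PT.const _).pair ((PT.const _).pair (a1.snd'.fst'.cons a1.snd'.snd'))
  have h : PT (fun l : List Bool => l.foldl usStep (false, [], [])) := by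
    refine PT.foldl (l := fun l : List Bool => l) (s := fun _ => (false, [], []))
      (g := fun x : List Bool × (Bool × List Bool × List (List Bool)) × Bool =>
        usStep x.2.1 x.2.2) PT.id (PT.const _) hstep (5 * Polynomial.X + 11) ?_
    intro l l' hl'
    have h1 := us_sz l' (false, [], [])
    have h2 := hl'.length_le
    have h3 := length_le_sz l
    set s := l'.foldl usStep (false, [], []) with hs
    have h4 : sz s = sz s.1 + sz s.2 + 1 := sz_pair s.1 s.2
    have h6 := sz_bool s.1
    have h8 : sz (([], []) : List Bool × List (List Bool)) = 3 := rfl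
    simp only [Polynomial.eval_add, Polynomial.eval_mul, Polynomial.eval_X,
      Polynomial.eval_ofNat]
    have h1' : sz s.2 ≤ 3 + 5 * l'.length := h1
    show sz s ≤ _
    omega
  have h2 : PT (fun l : List Bool => (l.foldl usStep (false, [], [])).2.2.reverse) :=
    h.snd'.snd'.reverse
  exact PT.map (l := fun l : List Bool => (l.foldl usStep (false, [], [])).2.2.reverse)
    (g := fun x : List Bool × List Bool => x.2.reverse) h2 PT.snd.reverse

end ORDist
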