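import Pool.Agent.Work.MP_609cce_lc.OrcDefs

/-!
# Nondeterministic OR-distillation: definitions
-/

open Turing

namespace ORDist

/-- coding of a guess and a sequence of bit strings -/
def guessStr (z : List Bool × List (List Bool)) : List Bool := pairStr (z.1, seqBits z.2)

/-- coding of an output or no output -/
def optBits (o : Option (List Bool)) : List Bool := o.elim [] fun y => true :: y

/-- the strings over `S` in binary, letter by letter with the code `w` -/
def binary {S : Type} (w : S → List Bool) (xs : List (List S)) : List (List Bool) :=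
  xs.map fun x => x.flatMap w

/-- `y` is an output of the nondeterministic algorithm `D` on the sequence `xs`: it is the output
for some guess whose length is at most `p` (length of the coded sequence) -/
def Output (D : List Bool × List (List Bool) → Option (List Bool)) (p : Polynomial ℕ)
    (xs : List (List Bool)) (y : List Bool) : Prop :=
  ∃ g : List Bool, g.length ≤ p.eval (seqBits xs).length ∧ D (g, xs) = some y

/-- `D` is a polynomial time OR-compression of `R` into `R'` to `O (log n)` symbols per string: for
some polynomially bounded `m (n) ≥ 1`, sequences of exactly `m (n)` strings of length at most `n`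
are mapped to strings of length at most `c · m (n) · log n` -/
structure ORCompressionLog {S : Type} (R R' : Set (List S)) (D : List (List S) → List S) :
    Prop where
  /-- `D` is computed in time polynomial in the number and the lengths of the strings -/
  polyTime : PolyTime seqStr (fun x => x) D
  /-- a length bound for the output on `m (n)` strings of length at most `n` -/
  short : ∃ (c : ℕ) (m : ℕ → ℕ) (p : Polynomial ℕ), ∀ n : ℕ, 1 ≤ m n ∧ m n ≤ p.eval n ∧
    ∀ xs : List (List S), xs.length = m n → (∀ x ∈ xs, x.length ≤ n) →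
      (D xs).length ≤ c * m n * (Nat.log 2 n + 1)
  /-- the output computes the OR -/
  correct : ∀ xs : List (List S), xs ≠ [] → (D xs ∈ R' ↔ ∃ x ∈ xs, x ∈ R)

/-- `D` is a nondeterministic OR-compression of `R` into `R'` (strings over `S` given in binary with
the code `w`): all outputs compute the OR; and for some polynomially bounded `m (n) ≥ 1` there is
an output of length at most `c · m (n) · log n` on every sequence of exactly `m (n)` strings of
length at most `n` none of which is in `R` -/
structure NDCompression {S : Type} (w : S → List Bool) (R : Set (List S)) (R' : Set (List Bool))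
    (D : List Bool × List (List Bool) → Option (List Bool)) : Prop where
  /-- `D` is computed in polynomial time -/
  polyTime : PolyTime guessStr optBits D
  /-- the outputs -/
  spec : ∃ p : Polynomial ℕ,
    (∀ xs : List (List S), xs ≠ [] → ∀ y : List Bool, Output D p (binary w xs) y →
      (y ∈ R' ↔ ∃ x ∈ xs, x ∈ R)) ∧
    ∃ (c : ℕ) (m : ℕ → ℕ) (pm : Polynomial ℕ), ∀ n : ℕ, 1 ≤ m n ∧ m n ≤ pm.eval n ∧
      ∀ xs : List (List S), xs.length = m n → (∀ x ∈ xs, x.length ≤ n ∧ x ∉ R) →
        ∃ y : List Bool, Output D p (binary w xs) y ∧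
          y.length ≤ c * m n * (Nat.log 2 n + 1)

/-- `D` is a nondeterministic OR-distillation of the language `R` of bit strings into `R'`: all
outputs compute the OR, and there is always an output whose length is bounded by a polynomial in
the maximal length only -/
structure NDDistillation (R R' : Set (List Bool))
    (D : List Bool × List (List Bool) → Option (List Bool)) : Prop where
  /-- `D` is computed in polynomial time -/
  polyTime : PolyTime guessStr optBits D
  /-- the outputs -/
  spec : ∃ p q : Polynomial ℕ, ∀ xs : List (List Bool), xs ≠ [] →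
    (∀ y : List Bool, Output D p xs y → (y ∈ R' ↔ ∃ x ∈ xs, x ∈ R)) ∧
    ∀ n : ℕ, (∀ x ∈ xs, x.length ≤ n) → ∃ y : List Bool, Output D p xs y ∧ y.length ≤ q.eval n

/-- an OR-distillation is an OR-compression to `O (log n)` symbols per string -/
theorem ORDistillation.compressionLog {S : Type} {R R' : Set (List S)}
    {D : List (List S) → List S} (h : ORDistillation R R' D) : ORCompressionLog R R' D := by
  obtain ⟨q, hq⟩ := h.short
  refine ⟨h.polyTime, ⟨1, fun n => q.eval n + 1, q + 1, fun n => ⟨Nat.le_add_left _ _, ?_, ?_⟩⟩,
    h.correct⟩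
  · simp
  · intro xs hxs hx
    have h1 : xs ≠ [] := by rintro rfl; simp at hxs
    refine (hq n xs h1 hx).trans ?_
    rw [one_mul]
    exact (Nat.le_succ _).trans (Nat.le_mul_of_pos_right _ (Nat.succ_pos _))

/-- the logarithm of a number which is at most `P (n)` -/
theorem log_eval_le (P : Polynomial ℕ) : ∃ a : ℕ, ∀ n k : ℕ, k ≤ P.eval n →
    Nat.log 2 k + 1 ≤ a * (Nat.log 2 n + 1) := by
  have key : ∃ a : ℕ, ∀ n : ℕ, P.eval n < 2 ^ (a * (Nat.log 2 n + 1)) := by
    induction P using Polynomial.induction_on' with
    | add p q hp hq =>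
      obtain ⟨a, ha⟩ := hp
      obtain ⟨b, hb⟩ := hq
      refine ⟨a + b + 1, fun n => ?_⟩
      rw [Polynomial.eval_add]
      have h1 := ha n
      have h2 := hb n
      set l := Nat.log 2 n + 1 with hl
      have hl1 : 1 ≤ l := by omega
      have e1 : 2 ^ (a * l) ≤ 2 ^ ((a + b) * l) :=
        Nat.pow_le_pow_right (by norm_num) (Nat.mul_le_mul_right _ (by omega))
      have e2 : 2 ^ (b * l) ≤ 2 ^ ((a + b) * l) :=
        Nat.pow_le_pow_right (by norm_num) (Nat.mul_le_mul_right _ (by omega))
      have e3 : 2 ^ ((a + b) * l) * 2 ≤ 2 ^ ((a + b + 1) * l) := by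
        rw [← pow_succ]
        exact Nat.pow_le_pow_right (by norm_num) (by rw [add_mul (a + b), one_mul]; omega)
      omega
    | monomial d c =>
      refine ⟨d + c + 1, fun n => ?_⟩
      rw [Polynomial.eval_monomial]
      set l := Nat.log 2 n + 1 with hl
      have hl1 : 1 ≤ l := by omega
      have h1 : n < 2 ^ l := Nat.lt_pow_succ_log_self (by norm_num) n
      have h2 : n ^ d ≤ 2 ^ (l * d) := by
        rw [pow_mul]
        exact Nat.pow_le_pow_left h1.le d
      have h3 : c < 2 ^ c := Nat.lt_two_pow_self
      have h4 : 2 ^ c * 2 ^ (l * d) ≤ 2 ^ ((d + c + 1) * l) := by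
        rw [← pow_add]
        refine Nat.pow_le_pow_right (by norm_num) ?_
        have : c * 1 ≤ c * l := Nat.mul_le_mul_left _ hl1
        nlinarith
      calc c * n ^ d ≤ c * 2 ^ (l * d) := Nat.mul_le_mul_left _ h2
        _ < 2 ^ c * 2 ^ (l * d) := Nat.mul_lt_mul_of_pos_right h3 (by positivity)
        _ ≤ _ := h4
  obtain ⟨a, ha⟩ := key
  refine ⟨a + 1, fun n k hk => ?_⟩
  set l := Nat.log 2 n + 1 with hl
  have hl1 : 1 ≤ l := by omega
  rcases Nat.eq_zero_or_pos k with rfl | hk0
  · simp only [Nat.log_zero_right, zero_add]
    nlinarith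
  · have h1 : 2 ^ Nat.log 2 k ≤ k := Nat.pow_log_le_self 2 (by omega)
    have h2 : 2 ^ Nat.log 2 k < 2 ^ (a * l) := h1.trans_lt (hk.trans_lt (ha n))
    have h3 : Nat.log 2 k < a * l := (Nat.pow_lt_pow_iff_right (by norm_num)).1 h2
    nlinarith

/-- a compression to `c · m (n) · log (m (n))` symbols is one to `O (log n)` symbols per string -/
theorem ORCompression.toLog {S : Type} {R R' : Set (List S)}
    {D : List (List S) → List S} (h : ORCompression R R' D) : ORCompressionLog R R' D := by
  obtain ⟨c, m, p, hm⟩ := h.short
  obtain ⟨a, ha⟩ := log_eval_le p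
  refine ⟨h.polyTime, ⟨c * a, m, p, fun n => ⟨(hm n).1, (hm n).2.1, fun xs hxs hx => ?_⟩⟩,
    h.correct⟩
  refine ((hm n).2.2 xs hxs hx).trans ?_
  calc c * m n * (Nat.log 2 (m n) + 1) ≤ c * m n * (a * (Nat.log 2 n + 1)) :=
        Nat.mul_le_mul_left _ (ha n _ (hm n).2.1)
    _ = c * a * m n * (Nat.log 2 n + 1) := by ring

theorem binary_single (xs : List (List Bool)) : binary (fun b : Bool => [b]) xs = xs := by
  have h : ∀ x : List Bool, (x.flatMap fun b => [b]) = x := by
    intro x
    induction x with
    | nil => rfl
    | cons b x ih => rw [List.flatMap_cons, ih]; rfl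
  unfold binary
  conv_rhs => rw [← List.map_id xs]
  exact List.map_congr_left fun x _ => h x

/-- a nondeterministic OR-distillation is a nondeterministic OR-compression -/
theorem NDDistillation.compression {R R' : Set (List Bool)}
    {D : List Bool × List (List Bool) → Option (List Bool)} (h : NDDistillation R R' D) :
    NDCompression (fun b : Bool => [b]) R R' D := by
  obtain ⟨p, q, hpq⟩ := h.spec
  refine ⟨h.polyTime, p, fun xs hxs y hy => ?_, 1, fun n => q.eval n + 1, q + 1, fun n =>
    ⟨Nat.le_add_left _ _, ?_, fun xs hxs hx => ?_⟩⟩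
  · rw [binary_single] at hy
    exact (hpq xs hxs).1 y hy
  · simp
  · have h1 : xs ≠ [] := by rintro rfl; simp at hxs
    obtain ⟨y, hy1, hy2⟩ := (hpq xs h1).2 n fun x hx' => (hx x hx').1
    rw [binary_single]
    refine ⟨y, hy1, hy2.trans ?_⟩
    rw [one_mul]
    exact (Nat.le_succ _).trans (Nat.le_mul_of_pos_right _ (Nat.succ_pos _))

end ORDist
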