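import Pool.Agent.Work.MP_609cce_lc.OMain
import Pool.Agent.Work.MP_609cce_lc_nd.NDec
import Pool.Agent.Work.MP_609cce_lc_nd.NCheck
import Pool.Agent.Work.MP_609cce_lc_nd.NColl

/-!
# Nondeterministic OR-compression of an NP-hard language implies NP = coNP
-/

namespace ORDist

open PTime Turing Pool.Agent.Work.MP_609cce_lc.Ord

attribute [local instance] finCode

theorem pt_binary {S : Type} [Finite S] (w : S → List Bool) :
    PT (fun xs : List (List S) => binary w xs) := by
  have h : PT (fun x : List S => x.flatMap w) :=
    PT.flatMap (l := fun x : List S => x) (g := fun y : List S × S => w y.2) PT.id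
      ((PT.ofFinite w).comp PT.snd)
  exact PT.map (l := fun xs : List (List S) => xs)
    (g := fun y : List (List S) × List S => y.2.flatMap w) PT.id (h.comp PT.snd)

/-- an algorithm given by a machine is in the calculus -/
theorem pt_optBits {D : List Bool × List (List Bool) → Option (List Bool)}
    (h : PolyTime guessStr optBits D) : PT (fun z => optBits (D z)) :=
  PT.ofTM2 (ea := guessStr) (eb := optBits) (f := D) h.some pt_guessStr

theorem optBits_eq_some {o : Option (List Bool)} {v : List Bool} (h : optBits o = v)
    (hv : v ≠ []) : ∃ y, v = true :: y ∧ o = some y := by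
  cases o with
  | none => exact absurd h.symm hv
  | some y => exact ⟨y, h.symm, rfl⟩

/-- the instances in binary of the nodes in the list `A` -/
def inst {S : Type} (w : S → List Bool) (f : List Bool → List S) (x : List Bool)
    (A : List (List Bool)) : List (List Bool) := binary w (A.map fun u => f (pairStr (x, u)))

/-- the output for the guess `z.1` on the instances of the nodes in the list `z.2` -/
def outG (D : List Bool × List (List Bool) → Option (List Bool)) (p : Polynomial ℕ)
    {S : Type} (w : S → List Bool) (f : List Bool → List S) (x : List Bool)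
    (z : List Bool × List (List Bool)) : List Bool :=
  bif decide (z.1.length ≤ p.eval (seqBits (inst w f x z.2)).length) then
    optBits (D (z.1, inst w f x z.2)) else []

theorem outG_ne {D : List Bool × List (List Bool) → Option (List Bool)} {p : Polynomial ℕ}
    {S : Type} {w : S → List Bool} {f : List Bool → List S} {x : List Bool}
    {z : List Bool × List (List Bool)} (h : outG D p w f x z ≠ []) :
    ∃ y, outG D p w f x z = true :: y ∧ z.1.length ≤ p.eval (seqBits (inst w f x z.2)).length ∧
      D (z.1, inst w f x z.2) = some y := by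
  unfold outG at h ⊢
  by_cases h1 : z.1.length ≤ p.eval (seqBits (inst w f x z.2)).length
  · rw [decide_eq_true h1, cond_true] at h ⊢
    obtain ⟨y, h2, h3⟩ := optBits_eq_some rfl h
    exact ⟨y, h2, h1, h3⟩
  · rw [decide_eq_false h1, cond_false] at h
    exact absurd rfl h

theorem outG_some {D : List Bool × List (List Bool) → Option (List Bool)} {p : Polynomial ℕ}
    {S : Type} {w : S → List Bool} {f : List Bool → List S} {x g : List Bool}
    {A : List (List Bool)} {y : List Bool} (h1 : g.length ≤ p.eval (seqBits (inst w f x A)).length)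
    (h2 : D (g, inst w f x A) = some y) : outG D p w f x (g, A) = true :: y := by
  unfold outG
  rw [decide_eq_true h1, cond_true, h2]
  rfl

/-- a nondeterministic OR-compression of an NP-hard language implies NP = coNP -/
theorem np_eq_conp_nd {S : Type} [Finite S] [Nonempty S] {w : S → List Bool}
    {R : Set (List S)} {R' : Set (List Bool)} (hR : NPHard R)
    {D : List Bool × List (List Bool) → Option (List Bool)} (hD : NDCompression w R R' D) :
    NPeqCoNP := by
  classical
  rintro L ⟨V, p, hV0, hL⟩
  have : Inhabited S := Classical.inhabited_of_nonempty inferInstance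
  have := Fintype.ofFinite S
  -- the given machines are in the calculus
  have hV : PT V := by
    have h : PT (fun z : List Bool × List Bool => [V z]) := PT.ofTM2 hV0.some pt_pairStr
    exact (h.headD (PT.const false)).congr fun z => rfl
  obtain ⟨f, hf0, hf⟩ := hR _ (prefix_inNP hV p)
  have hf1 : PT f := PT.ofTM2 (ea := fun x : List Bool => x) (eb := fun x : List S => x)
    (f := f) hf0.some PT.id
  have hD1 := pt_optBits hD.polyTime
  obtain ⟨pg, hcor, c, m, pm, hm⟩ := hD.spec
  obtain ⟨q, hq⟩ := hf1.size
  -- the instances
  have hinst : PT (fun z : List Bool × List (List Bool) => inst w f z.1 z.2) := by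
    have hg : PT (fun x : (List Bool × List (List Bool)) × List Bool =>
        f (pairStr (x.1.1, x.2))) := hf1.comp (pt_pairStr.comp (PT.fst.fst'.pair PT.snd))
    exact (pt_binary w).comp (PT.map PT.snd hg)
  obtain ⟨q1, hq1⟩ := (pt_seqBits.comp hinst).size
  -- the values
  have hout : PT (fun z : List Bool × List Bool × List (List Bool) =>
      outG D pg w f z.1 z.2) := by
    have hi : PT (fun z : List Bool × List Bool × List (List Bool) => inst w f z.1 z.2.2) :=
      hinst.comp (PT.fst.pair PT.snd.snd')
    exact PT.cond (PT.le PT.snd.fst'.length (PT.polyEval pg (pt_seqBits.comp hi).length))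
      (hD1.comp (PT.snd.fst'.pair hi)) (PT.const [])
  have hE : PT (fun z : (List Bool × Table) × List (List Bool) =>
      valG (outG D pg w f z.1.1) (look z.1.2 z.2) z.2) := by
    have hk : PT (fun z : (List Bool × Table) × List (List Bool) => look z.1.2 z.2) :=
      pt_look PT.fst.snd' PT.snd
    have ho : PT (fun z : (List Bool × Table) × List (List Bool) =>
        outG D pg w f z.1.1 (look z.1.2 z.2, z.2)) :=
      hout.comp (PT.fst.fst'.pair (hk.pair PT.snd))
    exact PT.cond ho.isEmpty ((PT.const []).pair PT.snd) (ho.pair (PT.const []))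
  -- polynomials
  let n0 : Polynomial ℕ := q.comp (4 * (2 * Polynomial.X + 1 + p) + 1)
  have hn0 : ∀ x u : List Bool, u.length ≤ p.eval x.length →
      (f (pairStr (x, u))).length ≤ n0.eval x.length := by
    intro x u hu
    refine (length_le_sz _).trans ((hq _).trans ?_)
    have h1 := sz_str (pairStr (x, u))
    rw [pairStr_length] at h1
    have h2 := eval_mono q (show sz (pairStr (x, u)) ≤
      4 * (2 * x.length + 1 + p.eval x.length) + 1 by omega)
    simp only [n0, Polynomial.eval_comp, Polynomial.eval_add, Polynomial.eval_mul,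
      Polynomial.eval_ofNat, Polynomial.eval_X, Polynomial.eval_one]
    exact h2
  obtain ⟨Q, hQ⟩ := needPer_poly (Fintype.card Bool) c (pm.comp n0) n0
  obtain ⟨P, hP⟩ := exists_cert_poly p Q
  let B : Polynomial ℕ := pg.comp (q1.comp (4 * Polynomial.X + P + 2))
  have hgood : ∀ x u : List Bool, f (pairStr (x, u)) ∈ R ↔
      Good (fun u => V (x, u)) (p.eval x.length) u := by
    intro x u
    rw [← hf]
    constructor
    · rintro ⟨x', u', e, y, h1, h2, h3⟩
      have := pairStr_injective e
      simp only [Prod.mk.injEq] at this
      obtain ⟨rfl, rfl⟩ := this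
      exact ⟨y, h1, h2, h3⟩
    · rintro ⟨y, h1, h2, h3⟩
      exact ⟨x, u, rfl, y, h1, h2, h3⟩
  have hmem : ∀ (x : List Bool) (A : List (List Bool)),
      (∃ v ∈ A.map fun u => f (pairStr (x, u)), v ∈ R) ↔
        ∃ u ∈ A, Good (fun u => V (x, u)) (p.eval x.length) u := by
    intro x A
    constructor
    · rintro ⟨v, hv, hvR⟩
      obtain ⟨u, hu, rfl⟩ := List.mem_map.1 hv
      exact ⟨u, hu, (hgood x u).1 hvR⟩
    · rintro ⟨u, hu, hg⟩
      exact ⟨_, List.mem_map.2 ⟨u, hu, rfl⟩, (hgood x u).2 hg⟩
  -- soundness of the values
  have hsound : ∀ (x g : List Bool) (A : List (List Bool)), A ≠ [] →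
      (((∃ y, (valG (outG D pg w f x) g A).1 = true :: y ∧ y ∈ R') ∨
        ((valG (outG D pg w f x) g A).1 = [] ∧
          ∃ u ∈ (valG (outG D pg w f x) g A).2,
            Good (fun u => V (x, u)) (p.eval x.length) u)) ↔
        ∃ u ∈ A, Good (fun u => V (x, u)) (p.eval x.length) u) := by
    intro x g A hA
    by_cases h0 : outG D pg w f x (g, A) = []
    · have e : valG (outG D pg w f x) g A = ([], A) := by
        unfold valG
        rw [h0]
        rfl
      rw [e]
      constructor
      · rintro (⟨y, h1, _⟩ | ⟨_, h1⟩)
        · exact absurd h1 (by simp)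
        · exact h1
      · exact fun h1 => Or.inr ⟨rfl, h1⟩
    · obtain ⟨y, h1, h2, h3⟩ := outG_ne h0
      have e : valG (outG D pg w f x) g A = (true :: y, []) := by
        unfold valG
        rw [h1]
        rfl
      have h4 := hcor (A.map fun u => f (pairStr (x, u))) (by simpa using hA) y ⟨g, h2, h3⟩
      rw [hmem] at h4
      rw [e, ← h4]
      constructor
      · rintro (⟨y', h5, h6⟩ | ⟨h5, _⟩)
        · simp only [List.cons.injEq, true_and] at h5
          rw [h5]
          exact h6
        · exact absurd h5 (by simp)
      · exact fun h5 => Or.inl ⟨y, rfl, h5⟩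
  refine inNP_of (fun V hV => PT.polyTime_verifier hV)
    (fun z : List Bool × List Lev × Table => decide (p.eval z.1.length < z.2.1.length) &&
      check (fun u => V (z.1, u))
        (fun A => valG (outG D pg w f z.1) (look z.2.2 A) A) z.2.1)
    ?_ (P + (2 * P * (P + (4 * B + 1) + 1 + 1) + 1) + 1) ?_ ?_
  · have hV' : PT (fun z : (List Bool × Table) × List Bool => V (z.1.1, z.2)) :=
      hV.comp (PT.fst.fst'.pair PT.snd)
    have h1 := pt_checker hV' hE (n := fun a : List Bool × Table => p.eval a.1.length)
      (PT.polyEval p PT.fst.length)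
    exact h1.comp (f := fun z : List Bool × List Lev × Table => ((z.1, z.2.2), z.2.1))
      ((PT.fst.pair PT.snd.snd').pair PT.snd.fst')
  · rintro x ⟨cert, T⟩ h hx
    simp only [Bool.and_eq_true, decide_eq_true_eq] at h
    obtain ⟨h1, h2⟩ := h
    obtain ⟨y, hy, hVy⟩ := (hL x).1 hx
    exact check_sound (P := fun v : List Bool × List (List Bool) =>
      (∃ y, v.1 = true :: y ∧ y ∈ R') ∨ (v.1 = [] ∧
        ∃ u ∈ v.2, Good (fun u => V (x, u)) (p.eval x.length) u))
      (fun A hA => hsound x (look T A) A hA) h1 h2 ⟨y, hy, hVy⟩
  · intro x hx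
    have hVf : ∀ y : List Bool, y.length ≤ p.eval x.length → V (x, y) = false := by
      intro y hy
      cases hv : V (x, y) with
      | false => rfl
      | true => exact absurd ((hL x).2 ⟨y, hy, hv⟩) hx
    have hno : ∀ u : List Bool, f (pairStr (x, u)) ∉ R := by
      intro u hu
      obtain ⟨y, _, h2, h3⟩ := (hgood x u).1 hu
      have h4 : V (x, y) = true := h3
      rw [hVf y h2] at h4
      exact absurd h4 (by decide)
    obtain ⟨hm1, hm2, hm3⟩ := hm (n0.eval x.length)
    -- outputs
    have hex : ∀ A : List (List Bool), ∃ g y : List Bool,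
        (∀ u ∈ A, u.length ≤ p.eval x.length) → A.length = m (n0.eval x.length) →
        g.length ≤ pg.eval (seqBits (inst w f x A)).length ∧ D (g, inst w f x A) = some y ∧
        y.length ≤ c * m (n0.eval x.length) * (Nat.log 2 (n0.eval x.length) + 1) := by
      intro A
      by_cases hA : (∀ u ∈ A, u.length ≤ p.eval x.length) ∧ A.length = m (n0.eval x.length)
      · obtain ⟨y, ⟨g, h1, h2⟩, h3⟩ := hm3 (A.map fun u => f (pairStr (x, u)))
          (by rw [List.length_map, hA.2]) (fun v hv => by
            obtain ⟨u, hu, rfl⟩ := List.mem_map.1 hv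
            exact ⟨hn0 x u (hA.1 u hu), hno u⟩)
        exact ⟨g, y, fun _ _ => ⟨h1, h2, h3⟩⟩
      · exact ⟨[], [], fun h1 h2 => absurd ⟨h1, h2⟩ hA⟩
    choose g0 yd hgy using hex
    let gd : List (List Bool) → List Bool := fun A =>
      if (∀ u ∈ A, u.length ≤ p.eval x.length) ∧ A.length = m (n0.eval x.length) then g0 A else []
    obtain ⟨cert, hc1, hc2, hc3⟩ := check_complete'
      (E := fun A : List (List Bool) => valG (outG D pg w f x) (gd A) A)
      (V := fun u => V (x, u)) (p := p.eval x.length)
      (M := needPer (Fintype.card Bool) (c * (Nat.log 2 (n0.eval x.length) + 1))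
        (m (n0.eval x.length))) hVf (by
        intro U hU hp hl
        obtain ⟨A, B, u, h1, h2, h3, h4, h5, h6, h7, h8, h9⟩ :=
          exists_collision_per yd _ _ hm1 U hU hl (fun A hA hl =>
            (hgy A (fun u hu => hp u (hA hu)) hl).2.2.trans_eq (by ring))
        have val : ∀ A : List (List Bool), A ⊆ U → A.length = m (n0.eval x.length) →
            valG (outG D pg w f x) (gd A) A = (true :: yd A, []) := by
          intro A hA hl
          have hcond : (∀ u ∈ A, u.length ≤ p.eval x.length) ∧
            A.length = m (n0.eval x.length) := ⟨fun u hu => hp u (hA hu), hl⟩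
          obtain ⟨a1, a2, _⟩ := hgy A hcond.1 hl
          have hgd : gd A = g0 A := if_pos hcond
          unfold valG
          rw [hgd, outG_some a1 a2]
          rfl
        have hBne : B ≠ [] := by
          intro h
          rw [h, List.length_nil] at h4
          omega
        refine ⟨(A, B, u), h1, h2, h1 h7, h5, h6, ?_⟩
        simp only [stepOK, Bool.and_eq_true, Bool.not_eq_true', List.isEmpty_eq_false_iff,
          List.all_eq_true, decide_eq_true_eq, decide_eq_false_iff_not]
        refine ⟨⟨⟨⟨hBne, fun v hv => h2 hv⟩, h7⟩, h8⟩, ?_⟩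
        rw [val A h1 h3, val B h2 h4, h9])
    have hM := hQ x.length (m (n0.eval x.length)) (hm2.trans_eq Polynomial.eval_comp.symm)
    have hsz := hP _ _ hc1 fun r hr => (hc3 r hr).mono hM
    refine ⟨(cert, tableOf gd cert), ?_, ?_⟩
    · simp only [Bool.and_eq_true, decide_eq_true_eq]
      refine ⟨by omega, ?_⟩
      rw [check_congr (E₂ := fun A : List (List Bool) => valG (outG D pg w f x) (gd A) A)]
      · exact hc2
      · intro r hr s hs
        obtain ⟨a1, a2⟩ := look_tableOf (gd := gd) hr hs
        rw [a1, a2]
        exact ⟨rfl, rfl⟩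
    · have hgB : ∀ A : List (List Bool), sz A ≤ sz cert → (gd A).length ≤ B.eval x.length := by
        intro A hA
        by_cases hcond : (∀ u ∈ A, u.length ≤ p.eval x.length) ∧
            A.length = m (n0.eval x.length)
        · obtain ⟨a1, _, _⟩ := hgy A hcond.1 hcond.2
          have hgd : gd A = g0 A := if_pos hcond
          rw [hgd]
          refine a1.trans ?_
          have b1 : sz (seqBits (inst w f x A)) ≤ q1.eval (sz (x, A)) := hq1 (x, A)
          have b2 := length_le_sz (seqBits (inst w f x A))
          have b3 := sz_str x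
          have b4 : sz (x, A) = sz x + sz A + 1 := sz_pair x A
          have b5 : q1.eval (sz (x, A)) ≤ q1.eval (4 * x.length + P.eval x.length + 2) :=
            eval_mono q1 (by omega)
          have b6 : pg.eval (seqBits (inst w f x A)).length ≤
            pg.eval (q1.eval (4 * x.length + P.eval x.length + 2)) := eval_mono pg (by omega)
          simp only [B, Polynomial.eval_comp, Polynomial.eval_add, Polynomial.eval_mul,
            Polynomial.eval_ofNat, Polynomial.eval_X]
          exact b6
        · have hgd : gd A = [] := if_neg hcond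
          rw [hgd]
          exact Nat.zero_le _
      have h1 := sz_tableOf gd (c := cert) (B := B.eval x.length) (fun r hr s hs => by
        have e1 : sz r ≤ sz cert := sz_mem hr
        have e2 : sz r = sz r.1 + sz r.2 + 1 := sz_pair r.1 r.2
        have e3 : sz s ≤ sz r.2 := sz_mem hs
        have e4 : sz s = sz s.1 + sz s.2 + 1 := sz_pair s.1 s.2
        have e5 : sz s.2 = sz s.2.1 + sz s.2.2 + 1 := sz_pair s.2.1 s.2.2
        exact ⟨hgB _ (by omega), hgB _ (by omega)⟩)
      have h2 : sz (cert, tableOf gd cert) = sz cert + sz (tableOf gd cert) + 1 :=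
        sz_pair _ _
      have h3 : 2 * sz cert * (sz cert + (4 * B.eval x.length + 1) + 1 + 1) ≤
          2 * P.eval x.length * (P.eval x.length + (4 * B.eval x.length + 1) + 1 + 1) :=
        Nat.mul_le_mul (by omega) (by omega)
      simp only [Polynomial.eval_add, Polynomial.eval_mul, Polynomial.eval_ofNat,
        Polynomial.eval_one]
      omega

end ORDist
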